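import Pool.Agent.H607.FewFact
import Mathlib

/-!
# Making real numbers absolutely normal by changing very few digits of their factorial expansions

Every real number `x` has a factorial expansion `x = ⌊x⌋ + ∑_{k ≥ 2} a_k / k!` with integers
`0 ≤ a_k < k`; for `x = e` all digits `a_k` are equal to `1`. There is one set `E` of places, which
has at most `34 log log K` elements up to `K`, such that every real number becomes absolutely
normal after a change of its digits at places in `E` only.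
-/

set_option autoImplicit false

namespace Pool.Agent.Results.MP_7e9a3a_nt.FewFactorialDigits

open Finset Filter Topology MeasureTheory ProbabilityTheory
open Pool.Agent.W206.ND (ee NT AV)
open Pool.Agent.H607

/-- the digit of `x` in base `b` at position `i` after the point -/
noncomputable def digit (b : ℕ) (x : ℝ) (i : ℕ) : ℤ := ⌊x * (b : ℝ) ^ i⌋ % (b : ℤ)

open Classical in
/-- `x` is normal in base `b`: every word of `m` digits occurs along the positions with limiting
frequency `b ^ (-m)` -/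
def Normal (b : ℕ) (x : ℝ) : Prop :=
  ∀ m : ℕ, 1 ≤ m → ∀ w : Fin m → Fin b,
    Tendsto (fun N : ℕ => (((Icc 1 N).filter fun i : ℕ =>
      ∀ t : Fin m, digit b x (i + (t : ℕ)) = ((w t : ℕ) : ℤ)).card : ℝ) / (N : ℝ))
      atTop (𝓝 (1 / (b : ℝ) ^ m))

/-- the digit of `x` at the place `k` of the factorial expansion
`x = ⌊x⌋ + ∑_{k ≥ 2} a_k / k!`, `0 ≤ a_k < k` -/
noncomputable def factorialDigit (x : ℝ) (k : ℕ) : ℤ :=
  ⌊(k.factorial : ℝ) * x⌋ - k * ⌊((k - 1).factorial : ℝ) * x⌋

lemma normal_of_av (b : ℕ) (hb : 2 ≤ b) (x : ℝ) (h : ∀ h : ℤ, h ≠ 0 → AV b (h * x) 1) :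
    Normal b x := by
  have h1 : NT b (fun _ : Fin 1 => x) := by
    apply nt_of_weyl b 1 _ hb
    intro g hg
    rw [Fin.sum_univ_one]
    apply h
    intro h0
    apply hg
    ext j
    rw [Subsingleton.elim j 0, h0]
    rfl
  intro m hm w
  have h2 := h1 m hm (fun _ => w)
  rw [mul_one] at h2
  refine h2.congr fun N => ?_
  congr 3
  ext i
  simp only [mem_filter]
  constructor
  · rintro ⟨ha, hb⟩
    exact ⟨ha, fun t => hb 0 t⟩
  · rintro ⟨ha, hb⟩
    exact ⟨ha, fun _ t => hb t⟩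

/-- the digits of `e` are all equal to one -/
lemma factorialDigit_e (k : ℕ) (hk : 2 ≤ k) : factorialDigit (Real.exp 1) k = 1 :=
  FewFact.fdig_e k hk

theorem result : ∃ E : Set ℕ,
    (∀ K : ℕ, 3 ≤ K → ((E ∩ Set.Icc 1 K).ncard : ℝ) ≤ 34 * Real.log (Real.log K)) ∧
    ∀ x : ℝ, ∃ y : ℝ, ⌊y⌋ = ⌊x⌋ ∧
      (∀ k : ℕ, 2 ≤ k → k ∉ E → factorialDigit y k = factorialDigit x k) ∧
      ∀ b : ℕ, 2 ≤ b → Normal b y := by
  obtain ⟨E, hE, h⟩ := FewFact.main
  refine ⟨E, hE, fun x => ?_⟩
  obtain ⟨y, h1, h2, h3⟩ := h x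
  exact ⟨y, h1, h2, fun b hb => normal_of_av b hb y (h3 b hb)⟩

end Pool.Agent.Results.MP_7e9a3a_nt.FewFactorialDigits
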