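import Pool.Agent.H607.CF.Final
import Pool.Agent.H607.CF.Norm
import Pool.Agent.H607.CF.Euler
import Mathlib

/-!
# Making numbers absolutely normal by changing very few partial quotients

The continued fractions `e = [2; 1, 2, 1, 1, 4, 1, 1, 6, …]` and `√2 = [1; 2, 2, 2, …]` become
absolutely normal numbers after a change of `O(log log N)` of the first `N` partial quotients (for
all `N`). The same holds for every irrational number `x = [a₀; a₁, a₂, …]` with
`log a_n / n → 0`.
-/

set_option autoImplicit false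

namespace Pool.Agent.Results.MP_7e9a3a_nt.FewPartialQuotients

open Finset Filter Topology
open Pool.Agent.H607

/-- the digit of `x` in base `b` at position `i` after the point -/
noncomputable def digit (b : ℕ) (x : ℝ) (i : ℕ) : ℤ := ⌊x * (b : ℝ) ^ i⌋ % (b : ℤ)

open Classical in
/-- `x` is normal in base `b`: every word of `m` digits occurs along the positions with limiting
frequency `b ^ (-m)` -/
def Normal (b : ℕ) (x : ℝ) : Prop :=
  ∀ m : ℕ, 1 ≤ m → ∀ w : Fin m → Fin b,
    Tendsto (fun N : ℕ => (((Icc 1 N).filter fun i : ℕ =>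
      ∀ t : Fin m, digit b x (i + (t : ℕ)) = ((w t : ℕ) : ℤ)).card : ℝ) / (N : ℝ))
      atTop (𝓝 (1 / (b : ℝ) ^ m))

/-- the complete quotients of the regular continued fraction of `x` -/
noncomputable def completeQuotient (x : ℝ) : ℕ → ℝ
  | 0 => x
  | n + 1 => 1 / Int.fract (completeQuotient x n)

/-- the partial quotients of the regular continued fraction of `x` -/
noncomputable def partialQuotient (x : ℝ) (n : ℕ) : ℤ := ⌊completeQuotient x n⌋

lemma completeQuotient_eq (x : ℝ) (n : ℕ) : completeQuotient x n = CF.cq x n := by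
  induction n with
  | zero => rfl
  | succ n ih =>
    rw [completeQuotient, CF.cq, ih]

lemma partialQuotient_eq (x : ℝ) : partialQuotient x = CF.pq x := by
  ext n
  unfold partialQuotient CF.pq
  rw [completeQuotient_eq]

theorem result : ∃ C : ℝ, 0 < C ∧
    (∀ x : ℝ, Irrational x →
      Tendsto (fun n : ℕ => Real.log (partialQuotient x n) / n) atTop (𝓝 0) → ∀ M : ℕ,
      ∃ y : ℝ, Irrational y ∧ (∀ b : ℕ, 2 ≤ b → Normal b y) ∧
        (∀ n < M, partialQuotient y n = partialQuotient x n) ∧
        ∀ N : ℕ, 3 ≤ N → (({n : ℕ | n < N ∧ partialQuotient y n ≠ partialQuotient x n}).ncard : ℝ) ≤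
          C * Real.log (Real.log N)) ∧
    (Irrational (Real.exp 1) ∧
      Tendsto (fun n : ℕ => Real.log (partialQuotient (Real.exp 1) n) / n) atTop (𝓝 0)) ∧
    (Irrational (Real.sqrt 2) ∧
      Tendsto (fun n : ℕ => Real.log (partialQuotient (Real.sqrt 2) n) / n) atTop (𝓝 0)) := by
  simp only [partialQuotient_eq]
  obtain ⟨C, hC, h⟩ := CF.main
  refine ⟨C, hC, fun x hx hl M => ?_, ⟨CF.irrational_e, CF.log_pq_e⟩,
    ⟨irrational_sqrt_two, CF.log_pq_sqrt⟩⟩
  obtain ⟨y, h1, h2, h3⟩ := h x hx hl M
  refine ⟨y, CF.irrational_of_freq y h3, fun b hb m _ w => ?_, h1, h2⟩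
  classical
  exact CF.normal_of_freq b hb y (h3 b hb) m w _ fun i => Iff.rfl

end Pool.Agent.Results.MP_7e9a3a_nt.FewPartialQuotients
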