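import Pool.Agent.H607.Sp.Count
import Pool.Agent.H607.Mix.Digits
import Pool.Agent.H607.Mix.Count
import Mathlib

/-!
# A Liouville number with sparse digits whose products with all irrational algebraic numbers are
absolutely normal

Let `g ≥ 2` (for instance `g = 2` or `g = 10`) and let `(r, s)` be any interval (for instance a small
neighbourhood of `1`). There is ONE real number `y` in `(r, s)` such that

* `y` is a Liouville number;
* almost all digits of `y` in base `g` are equal to `0` (the number of nonzero digits among the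
  first `N` digits is `o(N)`), so `y` is very far from being normal in base `g`;
* for ALL irrational real algebraic numbers `x`, for instance `x = √2`, and all real algebraic numbers
  `c`, the number `x y + c` is absolutely normal. More generally, let `x_1, …, x_k` be real algebraic
  numbers such that `1, x_1, …, x_k` are linearly independent over `ℚ`, and let `c_1, …, c_k` be real
  algebraic numbers. Then for every rational number `β > 1` (`β = 10` or `β = 3/2`) the sequence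
  `((x_1 y + c_1) β^n, …, (x_k y + c_k) β^n)` is equidistributed modulo one, and for every
  base `b ≥ 2` every matrix of digits with `k` rows and `m` columns has frequency `b ^ (- m k)` in the
  base-`b` digits of `x_1 y + c_1, …, x_k y + c_k`.

For `y = 1` the last property is the problem (for `√2`).

The proof: `y = u / g^s + ∑_j m_j / g^(a_j)`, where `a_{j+1} / a_j → ∞` and `m_j` is a random integer
with `1 ≤ m_j ≤ g^(l_j)`, `l_j / a_j → 0`. The correlations of the sequence are bounded by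
`1 / (g^(l_j) ‖T / g^(a_j)‖)`, where `T = x (β^n' - β^n)` and `j` is the largest index with
`g^(a_j) ≤ β^n'`; the distance to the nearest integer is at least `e^(-ε n')` for all
large `n'`, all `n < n'` and all exponents `a_j` with `g^(a_j) ≤ β^n'`, by the subspace theorem.
-/

set_option autoImplicit false

namespace Pool.Agent.Results.MP_7e9a3a_nt.LiouvilleFactor

open Finset Filter Topology MeasureTheory
open Pool.Agent.W206.ND (ee)
open Pool.Agent.H607 Pool.Agent.H607.Mix Pool.Agent.H607.Sp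

/-- the pairs `(x, β)` -/
def Pr : Set (ℝ × ℚ) := {y : ℝ | IsAlgebraic ℚ y ∧ Irrational y} ×ˢ {β : ℚ | 1 < β}

lemma pr_countable : Pr.Countable := alg_countable.prod (Set.to_countable _)

lemma pr_nonempty : Pr.Nonempty := by
  refine ⟨(Real.sqrt 2, 2), ⟨⟨?_, irrational_sqrt_two⟩, ?_⟩⟩
  · refine ⟨Polynomial.X ^ 2 - Polynomial.C 2, ?_, ?_⟩
    · exact (Polynomial.monic_X_pow_sub_C 2 (by norm_num)).ne_zero
    · simp
  · show (1 : ℚ) < 2
    norm_num

lemma good_rat {g : ℕ} (hg : 2 ≤ g) {x : ℝ} (hx : IsAlgebraic ℚ x) (hirr : Irrational x) {β : ℚ}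
    (hβ : 1 < β) (K : ℕ) : ∀ᶠ a : ℕ in atTop, Good g x (β : ℝ) K a := by
  rcases Nat.eq_zero_or_pos K with hK | hK
  · subst hK
    filter_upwards with a
    intro n' h1 h2
    rw [Nat.zero_mul, pow_zero] at h2
    have : (1 : ℝ) ≤ (g : ℝ) ^ a := one_le_pow₀ (by exact_mod_cast (by omega : 1 ≤ g))
    linarith
  · have hnum : 0 < β.num := Rat.num_pos.2 (by linarith)
    have h1 : ((β.num.toNat : ℕ) : ℤ) = β.num := Int.toNat_of_nonneg hnum.le
    have h2 : (β : ℝ) = ((β.num.toNat : ℕ) : ℝ) / (β.den : ℝ) := by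
      rw [Rat.cast_def]
      congr 1
      exact_mod_cast h1.symm
    rw [h2]
    refine good_ev hg (Nat.pos_of_ne_zero β.den_nz) ?_ hx hirr K hK
    have h3 : (1 : ℝ) < β := by exact_mod_cast hβ
    have h4 : (0 : ℝ) < (β.den : ℝ) := by exact_mod_cast Nat.pos_of_ne_zero β.den_nz
    rw [h2, one_lt_div h4] at h3
    exact_mod_cast h3

theorem result (g : ℕ) (hg : 2 ≤ g) (r s : ℝ) (hrs : r < s) :
    ∃ y : ℝ, r < y ∧ y < s ∧ Liouville y ∧
      Tendsto (fun N : ℕ => (((range N).filter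
        (fun n => ⌊y * (g : ℝ) ^ (n + 1)⌋ % (g : ℤ) ≠ 0)).card : ℝ) / N) atTop (𝓝 0) ∧
      ∀ (k : ℕ) (x c : Fin k → ℝ), (∀ j, IsAlgebraic ℚ (x j)) → (∀ j, IsAlgebraic ℚ (c j)) →
        LinearIndependent ℚ (Fin.cons 1 x : Fin (k + 1) → ℝ) →
        (∀ β : ℚ, 1 < β → ∀ u v : Fin k → ℝ, (∀ j, 0 ≤ u j ∧ u j ≤ v j ∧ v j ≤ 1) →
          Tendsto (fun N : ℕ => (((range N).filter (fun n => ∀ j,
            u j ≤ Int.fract ((x j * y + c j) * (β : ℝ) ^ n) ∧
            Int.fract ((x j * y + c j) * (β : ℝ) ^ n) < v j)).card : ℝ) / N)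
            atTop (𝓝 (∏ j, (v j - u j)))) ∧
        ∀ b : ℕ, 2 ≤ b → ∀ (m : ℕ) (D : Fin k → Fin m → Fin b),
          Tendsto (fun N : ℕ => (((range N).filter (fun n => ∀ (j : Fin k) (t : Fin m),
            ⌊(x j * y + c j) * (b : ℝ) ^ (n + (t : ℕ) + 1)⌋ % (b : ℤ) = ((D j t : ℕ) : ℤ))).card : ℝ) / N)
            atTop (𝓝 (1 / (b : ℝ) ^ (m * k))) := by
  classical
  -- the function `κ`
  obtain ⟨F, hF⟩ := pr_countable.exists_eq_range pr_nonempty
  have hFm : ∀ i, F i ∈ Pr := fun i => hF ▸ Set.mem_range_self i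
  obtain ⟨κ, hκ1, hκ2, hκ3⟩ := diag (fun K a => ∀ i ≤ K, Good g (F i).1 ((F i).2 : ℝ) K a) (by
    intro K
    have h := (Set.finite_le_nat K).eventually_all (l := (atTop : Filter ℕ))
      (p := fun i a => Good g (F i).1 ((F i).2 : ℝ) K a)
    exact h.2 fun i _ => good_rat hg (hFm i).1.1 (hFm i).1.2 (hFm i).2 K)
  obtain ⟨A₀, hA₀⟩ := eventually_atTop.1 (hκ1.eventually_ge_atTop 3)
  -- the starting point
  have hg1 : (1 : ℝ) < g := by exact_mod_cast (by omega : 1 < g)
  have hg0 : (0 : ℝ) < g := by linarith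
  obtain ⟨k₀, hk₀⟩ := ((tendsto_pow_atTop_atTop_of_one_lt hg1).eventually_gt_atTop
    (4 / (s - r))).exists
  have hsr : 0 < s - r := by linarith
  have hgk : (0 : ℝ) < (g : ℝ) ^ k₀ := by positivity
  have hk : 4 / (g : ℝ) ^ k₀ < s - r := by
    rw [div_lt_iff₀ hsr] at hk₀
    rw [div_lt_iff₀ hgk]
    linarith
  set u₀ : ℤ := ⌊r * (g : ℝ) ^ k₀⌋ + 1 with hu₀
  have hu1 : r < (u₀ : ℝ) / (g : ℝ) ^ k₀ := by
    rw [lt_div_iff₀ hgk, hu₀]
    push_cast
    exact Int.lt_floor_add_one _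
  have hu2 : (u₀ : ℝ) / (g : ℝ) ^ k₀ ≤ r + 1 / (g : ℝ) ^ k₀ := by
    rw [div_le_iff₀ hgk, hu₀]
    push_cast
    have := Int.floor_le (r * (g : ℝ) ^ k₀)
    have h2 : (r + 1 / (g : ℝ) ^ k₀) * (g : ℝ) ^ k₀ = r * (g : ℝ) ^ k₀ + 1 := by
      field_simp
    linarith
  let p : SPar := ⟨g, κ, max A₀ (2 * k₀ + 1), hg, by omega, fun a ha =>
    ⟨hA₀ a ((le_max_left _ _).trans ha), hκ2 a⟩⟩
  -- almost sure properties
  have hae : ∀ᵐ ω ∂(unif (ws p)), ∀ i : ℕ, ∀ γ ∈ {γ : ℝ | IsAlgebraic ℚ γ},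
      Tendsto (fun N : ℕ => SS (fun n => ((F i).1 * yy p ((u₀ : ℝ) / (g : ℝ) ^ k₀) ω + γ) *
        ((F i).2 : ℝ) ^ n) N / (N : ℂ)) atTop (𝓝 0) := by
    rw [ae_all_iff]
    intro i
    rw [ae_ball_iff (Algebraic.countable ℚ ℝ)]
    intro γ _
    refine as_pair p _ _ _ _ ?_ ?_
    · have : (1 : ℚ) < (F i).2 := (hFm i).2
      exact_mod_cast this
    · filter_upwards [hκ3, hκ1.eventually_ge_atTop i] with a ha hai
      exact ha i hai
  obtain ⟨ω, hω⟩ := hae.exists
  set y := yy p ((u₀ : ℝ) / (g : ℝ) ^ k₀) ω with hy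
  have hyS : ∀ x : ℝ, IsAlgebraic ℚ x → Irrational x → ∀ β : ℚ, 1 < β → ∀ γ : ℝ, IsAlgebraic ℚ γ →
      Tendsto (fun N : ℕ => SS (fun n => (x * y + γ) * (β : ℝ) ^ n) N / (N : ℂ)) atTop (𝓝 0) := by
    intro x hx hirr β hβ γ hγ
    have h1 : (x, β) ∈ Pr := ⟨⟨hx, hirr⟩, hβ⟩
    rw [hF] at h1
    obtain ⟨i, hi⟩ := h1
    have h2 := hω i γ hγ
    rw [hi] at h2
    exact h2
  have hk₀pl : k₀ ≤ pl p 0 := by
    have : 2 * k₀ + 1 ≤ pl p 0 := le_max_right A₀ (2 * k₀ + 1)
    omega
  refine ⟨y, ?_, ?_, liou p u₀ k₀ ω hκ1, ?_, ?_⟩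
  · have h1 : 0 < ∑' i, tm p ω i := by
      have := tail_pos p ω 0
      simpa using this
    have h2 : y = (u₀ : ℝ) / (g : ℝ) ^ k₀ + ∑' i, tm p ω i := rfl
    linarith
  · have h1 : ∑' i, tm p ω i ≤ 2 / (g : ℝ) ^ en p 0 := by
      have := tail_le p ω 0
      simpa using this
    have h2 : y = (u₀ : ℝ) / (g : ℝ) ^ k₀ + ∑' i, tm p ω i := rfl
    have h3 : k₀ ≤ en p 0 := by
      have h4 : 2 * k₀ + 1 ≤ pl p 0 := le_max_right A₀ (2 * k₀ + 1)
      have h5 := en_add p 0
      have h6 := len_le p 0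
      omega
    have h4 : 2 / (g : ℝ) ^ en p 0 ≤ 2 / (g : ℝ) ^ k₀ := by
      gcongr
      exact hg1.le
    have h5 : 4 / (g : ℝ) ^ k₀ = 1 / (g : ℝ) ^ k₀ + 2 / (g : ℝ) ^ k₀ + 1 / (g : ℝ) ^ k₀ := by
      ring
    have h6 : 0 < 1 / (g : ℝ) ^ k₀ := by positivity
    linarith
  · refine sparse p hκ1 (fun n => ⌊y * (g : ℝ) ^ (n + 1)⌋ % (g : ℤ) ≠ 0) 0 ?_
    intro j hj n h1 h2
    rw [not_not]
    exact digit_zero p u₀ k₀ ω 0 hk₀pl j hj n h1 h2
  · intro k x c hx hc hlin
    have hbox : ∀ β : ℚ, 1 < β → ∀ u v : Fin k → ℝ, (∀ j, 0 ≤ u j ∧ u j ≤ v j ∧ v j ≤ 1) →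
          Tendsto (fun N : ℕ => (((range N).filter (fun n => ∀ j,
            u j ≤ Int.fract ((x j * y + c j) * (β : ℝ) ^ n) ∧
            Int.fract ((x j * y + c j) * (β : ℝ) ^ n) < v j)).card : ℝ) / N)
            atTop (𝓝 (∏ j, (v j - u j))) := by
      intro β hβ
      refine boxes k (fun j => x j * y + c j) (fun n => (β : ℝ) ^ n) ?_
      intro h hh
      have hy1 : IsAlgebraic ℚ (∑ j, (h j : ℝ) * x j) := by
        refine Finset.sum_induction _ (fun z => IsAlgebraic ℚ z) (fun _ _ ha hb => ha.add hb)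
          isAlgebraic_zero fun j _ => ?_
        exact IsAlgebraic.mul (isAlgebraic_intCast (h j)) (hx j)
      have hc1 : IsAlgebraic ℚ (∑ j, (h j : ℝ) * c j) := by
        refine Finset.sum_induction _ (fun z => IsAlgebraic ℚ z) (fun _ _ ha hb => ha.add hb)
          isAlgebraic_zero fun j _ => ?_
        exact IsAlgebraic.mul (isAlgebraic_intCast (h j)) (hc j)
      have hy2 : Irrational (∑ j, (h j : ℝ) * x j) := by
        rintro ⟨q, hr⟩
        rw [Fintype.linearIndependent_iff] at hlin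
        have h1 := hlin (Fin.cons (-q) fun j => (h j : ℚ)) (by
          rw [Fin.sum_univ_succ]
          simp only [Fin.cons_zero, Fin.cons_succ, Rat.smul_def, Rat.cast_neg, Rat.cast_intCast, mul_one]
          rw [hr]
          ring)
        apply hh
        funext j
        have h2 := h1 j.succ
        rw [Fin.cons_succ] at h2
        exact_mod_cast h2
      refine (hyS _ hy1 hy2 β hβ _ hc1).congr fun N => ?_
      congr 2
      funext n
      congr 1
      simp only [mul_add]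
      rw [sum_add_distrib, sum_mul]
      congr 1
      exact sum_congr rfl fun j _ => by ring
    refine ⟨hbox, fun b hb m D => ?_⟩
    have h1 := digits b hb (fun _ => b) (by simp) k (fun j => x j * y + c j) (by
      intro u v huv
      have h2 := hbox (b : ℚ) (by exact_mod_cast (by omega : 1 < b)) u v huv
      simp only [Rat.cast_natCast] at h2
      simpa only [prod_const, card_range] using h2) m D
    simpa only [prod_const, card_range] using h1

end Pool.Agent.Results.MP_7e9a3a_nt.LiouvilleFactor
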