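import Pool.Agent.H607.ExpTerms
import Mathlib

/-!
# The exponential function with random terms

Let `S` be a random set of natural numbers with independent membership events, and consider the
random entire function `f(z) = ∑_{k ∈ S} z ^ k / k!`, a random subseries of `e ^ z`. Under a weak
condition on the probabilities, almost surely the values of `f` at all distinct non-zero rational
numbers are jointly normal in every integer base.
-/

set_option autoImplicit false

namespace Pool.Agent.Results.MP_7e9a3a_nt.RandomExponential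

open Finset Filter Topology MeasureTheory ProbabilityTheory
open Pool.Agent.W206.ND (ee NT AV)
open Pool.Agent.H607

/-- the digit of `x` in base `b` at position `i` after the point -/
noncomputable def digit (b : ℕ) (x : ℝ) (i : ℕ) : ℤ := ⌊x * (b : ℝ) ^ i⌋ % (b : ℤ)

open Classical in
/-- the tuple `x` is jointly normal in base `b`: every digit matrix with `n` rows and `m` columns
occurs along the positions with limiting frequency `b ^ (-(m * n))` -/
def JointlyNormal (b : ℕ) {n : ℕ} (x : Fin n → ℝ) : Prop :=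
  ∀ m : ℕ, 1 ≤ m → ∀ D : Fin n → Fin m → Fin b,
    Tendsto (fun N : ℕ => (((Icc 1 N).filter fun i : ℕ =>
      ∀ (j : Fin n) (t : Fin m), digit b (x j) (i + (t : ℕ)) = ((D j t : ℕ) : ℤ)).card : ℝ) / (N : ℝ))
      atTop (𝓝 (1 / (b : ℝ) ^ (m * n)))

lemma jn_of_nt (b : ℕ) {n : ℕ} (x : Fin n → ℝ) (h : NT b x) : JointlyNormal b x := by
  intro m hm D
  have h1 := h m hm D
  refine h1.congr fun N => ?_
  congr 2

theorem result {Ω : Type*} [MeasurableSpace Ω] (μ : Measure Ω) [IsProbabilityMeasure μ]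
    (S : Ω → Set ℕ) (q : ℕ → ℝ)
    (hmeas : ∀ k, MeasurableSet {ω | k ∈ S ω})
    (hind : iIndepSet (fun k => {ω | k ∈ S ω}) μ)
    (hprob : ∀ k, μ.real {ω | k ∈ S ω} = q k)
    (hq : ∀ a M : ℕ, 1 ≤ M → Tendsto (fun K : ℕ =>
      (∑ i ∈ range K, q (a + M * i) * (1 - q (a + M * i))) / Real.log K) atTop atTop)
    (y : ℚ → ℝ) :
    ∀ᵐ ω ∂μ, ∀ (n : ℕ) (z : Fin n → ℚ), Function.Injective z → (∀ j, z j ≠ 0) →
      ∀ b : ℕ, 2 ≤ b → JointlyNormal b (fun j =>
        y (z j) + ∑' k : ℕ, (S ω).indicator (fun k => (z j : ℝ) ^ k / (k.factorial : ℝ)) k) := by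
  have hS : RandomSet μ S q := ⟨hmeas, hind, hprob⟩
  have hq' : ∀ a M : ℕ, 1 ≤ M → ∀ C : ℝ, ∀ᶠ I : ℕ in atTop,
      C * Real.log ((I : ℝ) + 2) ≤ ∑ i ∈ range I, q (a + M * i) * (1 - q (a + M * i)) := by
    intro a M hM C
    filter_upwards [(hq a M hM).eventually_ge_atTop (2 * |C|), eventually_ge_atTop 2] with I hI hI2
    have hI2' : (2 : ℝ) ≤ I := by exact_mod_cast hI2
    have hlog : 0 < Real.log I := Real.log_pos (by linarith)
    rw [le_div_iff₀ hlog] at hI
    have h1 : Real.log ((I : ℝ) + 2) ≤ 2 * Real.log I := by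
      have h2 : 2 * Real.log I = Real.log ((I : ℝ) ^ 2) := by rw [Real.log_pow]; norm_num
      rw [h2]
      exact Real.log_le_log (by linarith) (by nlinarith)
    have h3 : 0 ≤ Real.log ((I : ℝ) + 2) := Real.log_nonneg (by linarith)
    calc C * Real.log ((I : ℝ) + 2) ≤ |C| * Real.log ((I : ℝ) + 2) := by
          gcongr
          exact le_abs_self C
      _ ≤ |C| * (2 * Real.log I) := by gcongr
      _ = 2 * |C| * Real.log I := by ring
      _ ≤ _ := hI
  have hsum : ∀ z : ℚ, Summable (fun k : ℕ => (z : ℝ) ^ k / (k.factorial : ℝ)) := fun z =>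
    Real.summable_pow_div_factorial z
  -- one combination
  have key : ∀ (n : ℕ) (z : Fin n → ℚ), Function.Injective z → (∀ j, z j ≠ 0) →
      ∀ b : ℕ, 2 ≤ b → ∀ h : Fin n → ℤ, h ≠ 0 → ∀ᵐ ω ∂μ,
      AV b (∑ j, (h j : ℝ) * (y (z j) +
        ∑' k : ℕ, (S ω).indicator (fun k => (z j : ℝ) ^ k / (k.factorial : ℝ)) k)) 1 := by
    intro n z hz hz0 b hb h hh
    obtain ⟨p, a₀, M, e, v, d, m, Q, A, hM, H⟩ := exp_terms h z hh hz hz0 b hb
    have hes : Summable (ecoef h z) := by
      have h1 : ecoef h z = fun k => ∑ j, (h j : ℝ) * ((z j : ℝ) ^ k / (k.factorial : ℝ)) := by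
        ext k
        rw [ecoef, sum_div]
        exact sum_congr rfl fun j _ => by rw [mul_div_assoc]
      rw [h1]
      exact summable_sum fun j _ => (hsum (z j)).mul_left _
    have h1 := H.as_normal hb hS hes (hq' a₀ M hM) (∑ j, (h j : ℝ) * y (z j))
    filter_upwards [h1] with ω hω
    convert hω using 1
    simp only [mul_add]
    rw [sum_add_distrib]
    congr 1
    unfold ser
    have h2 : ∀ k, (S ω).indicator (ecoef h z) k =
        ∑ j, (h j : ℝ) * (S ω).indicator (fun k => (z j : ℝ) ^ k / (k.factorial : ℝ)) k := by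
      intro k
      by_cases hk : k ∈ S ω
      · simp only [Set.indicator_of_mem hk]
        rw [ecoef, sum_div]
        exact sum_congr rfl fun j _ => by rw [mul_div_assoc]
      · simp only [Set.indicator_of_notMem hk, mul_zero, sum_const_zero]
    simp only [h2]
    rw [Summable.tsum_finsetSum]
    · refine sum_congr rfl fun j _ => ?_
      rw [tsum_mul_left]
    · intro j _
      exact ((hsum (z j)).indicator _).mul_left _
  have key2 : ∀ᵐ ω ∂μ, ∀ (n : ℕ) (z : Fin n → ℚ) (b : ℕ) (h : Fin n → ℤ),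
      Function.Injective z → (∀ j, z j ≠ 0) → 2 ≤ b → h ≠ 0 →
      AV b (∑ j, (h j : ℝ) * (y (z j) +
        ∑' k : ℕ, (S ω).indicator (fun k => (z j : ℝ) ^ k / (k.factorial : ℝ)) k)) 1 := by
    rw [ae_all_iff]
    intro n
    rw [ae_all_iff]
    intro z
    rw [ae_all_iff]
    intro b
    rw [ae_all_iff]
    intro h
    by_cases hall : Function.Injective z ∧ (∀ j, z j ≠ 0) ∧ 2 ≤ b ∧ h ≠ 0
    · filter_upwards [key n z hall.1 hall.2.1 b hall.2.2.1 h hall.2.2.2] with ω hω
      intro _ _ _ _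
      exact hω
    · exact ae_of_all _ fun ω h1 h2 h3 h4 => absurd ⟨h1, h2, h3, h4⟩ hall
  filter_upwards [key2] with ω hω
  intro n z hz hz0 b hb
  apply jn_of_nt
  apply nt_of_weyl b n _ hb
  intro h hh
  exact hω n z b h hz hz0 hb hh

end Pool.Agent.Results.MP_7e9a3a_nt.RandomExponential
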